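import Pool.Agent.N364.QL.BoxB

/-!
# Project QL, part BOX
-/

set_option autoImplicit false

namespace Pool.Agent.N364.QL

open Finset Pool.Agent.N728.QL Filter Topology

/-- BOX, for `y ≥ 3`. -/
def S_BOX3 (c : ℤ) : Prop := ∃ K : ℕ, 1 ≤ K ∧ ∀ k w y M0 : ℕ, K ≤ k → 2 ≤ w → c.natAbs ≤ w → w ≤ y →
  3 ≤ y → ∀ ε : ℝ, 0 < ε → ∃ z0 : ℕ, ∀ z : ℕ, z0 ≤ z → ∃ B0 : ℕ, ∀ B : ℕ, B0 ≤ B →
  ∀ (z1 X Y M A A' : ℕ) (C C' : ℤ), z ≤ z1 → z1 ^ k ≤ B → M ∣ PP w y → M ≤ M0 → A ∣ M → A' ∣ M →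
  C.natAbs ≤ M0 → C'.natAbs ≤ M0 → B ≤ X ^ 3 → X ≤ B ^ 2 → B ≤ Y ^ 3 → Y ≤ B ^ 2 →
  ∑ t ∈ Icc (-((X / A : ℕ) : ℤ)) ((X / A : ℕ) : ℤ), ∑ r ∈ Icc (-((X / A' : ℕ) : ℤ)) ((X / A' : ℕ) : ℤ),
    |∑ x ∈ Icc (1 : ℤ) X, ∑ s ∈ Icc (1 : ℤ) Y, fB c w y z z1 X Y M x s * fB c w y z z1 X Y M (x + t * A) (s + t * C) *
      fB c w y z z1 X Y M (x + r * A') (s + r * C') * fB c w y z z1 X Y M (x + t * A + r * A') (s + t * C + r * C')| ≤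
    (K * Real.log y ^ K * (2 : ℝ) ^ (-((k : ℝ) / K)) + ε) * ((X : ℝ) * Y * (X / A) * (X / A'))

theorem PP_pos (w y : ℕ) : 0 < PP w y := by
  unfold PP
  exact prod_pos fun p hp => (mem_filter.1 hp).2.pos

theorem dvd_PP {w y p : ℕ} (hp : p.Prime) (h : p ∣ PP w y) : p ≤ y := by
  unfold PP at h
  rw [hp.prime.dvd_finsetProd_iff] at h
  obtain ⟨q, hq, hpq⟩ := h
  have hq' := mem_filter.1 hq
  have h1 : p = q := (Nat.prime_dvd_prime_iff_eq hp hq'.2).1 hpq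
  rw [h1]
  exact (mem_Ioc.1 hq'.1).2

theorem div_facts {B X A M0 : ℕ} (hA : 1 ≤ A) (hAM : A ≤ M0) (hB : (16 * M0 ^ 4) ^ 3 ≤ B)
    (hX : B ≤ X ^ 3) : 1 ≤ X / A ∧ B ≤ (X / A) ^ 4 := by
  have hM0 : 1 ≤ M0 := hA.trans hAM
  have h1 : 16 * M0 ^ 4 ≤ X := (Nat.pow_le_pow_iff_left (by norm_num)).1 (hB.trans hX)
  have h2 : M0 ≤ M0 ^ 4 := Nat.le_self_pow (by norm_num) M0
  have h3 : A ≤ X := by omega
  have h4 : 1 ≤ X / A := (Nat.le_div_iff_mul_le (by omega)).2 (by omega)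
  refine ⟨h4, ?_⟩
  set R := X / A with hR
  have h5 : X < R * A + A := Nat.lt_div_mul_add (by omega)
  have h6 : X ≤ 2 * M0 * R := by nlinarith
  have h7 : X ^ 4 ≤ (16 * M0 ^ 4) * R ^ 4 := by
    calc X ^ 4 ≤ (2 * M0 * R) ^ 4 := Nat.pow_le_pow_left h6 4
      _ = (16 * M0 ^ 4) * R ^ 4 := by ring
  have h8 : (16 * M0 ^ 4) * B ≤ (16 * M0 ^ 4) * R ^ 4 := by
    calc (16 * M0 ^ 4) * B ≤ X * X ^ 3 := Nat.mul_le_mul h1 hX
      _ = X ^ 4 := by ring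
      _ ≤ _ := h7
  exact Nat.le_of_mul_le_mul_left h8 (by positivity)

/-- the conclusion of AVG for one value of the parameters -/
def AvP (c : ℤ) (K : ℝ) (s M A A' : ℕ) (C C' : ℤ) (B : ℕ) : Prop :=
  ∀ X R R' : ℕ, B ≤ X ^ 4 → B ≤ R ^ 4 → B ≤ R' ^ 4 → X ≤ B ^ 2 → R ≤ B ^ 2 →
  R' ≤ B ^ 2 →
  (∑ x ∈ Icc (1 : ℤ) X, ∑ t ∈ Icc (-(R : ℤ)) R, ∑ r ∈ Icc (-(R' : ℤ)) R',
    (if Dl c M (xs A A' x t r) (ts C C' t r) = 0 then 0 else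
      hq s (Dl c M (xs A A' x t r) (ts C C' t r)) ^ 2 - 1) ≤ K / s * ((X : ℝ) * R * R')) ∧
  (∑ x ∈ Icc (1 : ℤ) X, ∑ t ∈ Icc (-(R : ℤ)) R, ∑ r ∈ Icc (-(R' : ℤ)) R',
    (if Dl c M (xs A A' x t r) (ts C C' t r) = 0 then (1 : ℝ) else 0) ≤ (X : ℝ) * R * R' / Real.log B ^ 10)

theorem ev_avg (c : ℤ) (K : ℝ) (s M0 : ℕ) (hs : 2 ≤ s)
    (h : ∀ (s M A A' : ℕ) (C C' : ℤ), 2 ≤ s → 1 ≤ M → 1 ≤ A → 1 ≤ A' →
      (∀ p : ℕ, p.Prime → s < p → ¬ p ∣ M * A * A' ∧ ¬ (p : ℤ) ∣ c) →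
      ∃ B0 : ℕ, ∀ B : ℕ, B0 ≤ B → AvP c K s M A A' C C' B) :
    ∀ᶠ B : ℕ in atTop, ∀ (M A A' : ℕ) (C C' : ℤ), M ≤ M0 → A ≤ M0 → A' ≤ M0 → C.natAbs ≤ M0 →
      C'.natAbs ≤ M0 → 1 ≤ M → 1 ≤ A → 1 ≤ A' →
      (∀ p : ℕ, p.Prime → s < p → ¬ p ∣ M * A * A' ∧ ¬ (p : ℤ) ∣ c) → AvP c K s M A A' C C' B := by
  classical
  have h1 := (Filter.eventually_all_finset (range (M0 + 1) ×ˢ (range (M0 + 1) ×ˢ (range (M0 + 1) ×ˢ
    (Icc (-(M0 : ℤ)) M0 ×ˢ Icc (-(M0 : ℤ)) M0)))) (l := (atTop : Filter ℕ))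
    (p := fun i B => 1 ≤ i.1 → 1 ≤ i.2.1 → 1 ≤ i.2.2.1 →
      (∀ p : ℕ, p.Prime → s < p → ¬ p ∣ i.1 * i.2.1 * i.2.2.1 ∧ ¬ (p : ℤ) ∣ c) →
      AvP c K s i.1 i.2.1 i.2.2.1 i.2.2.2.1 i.2.2.2.2 B)).2 (by
    rintro ⟨M, A, A', C, C'⟩ _
    simp only
    by_cases hM : 1 ≤ M
    swap
    · exact Filter.Eventually.of_forall fun B h => absurd h hM
    by_cases hA : 1 ≤ A
    swap
    · exact Filter.Eventually.of_forall fun B _ h => absurd h hA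
    by_cases hA' : 1 ≤ A'
    swap
    · exact Filter.Eventually.of_forall fun B _ _ h => absurd h hA'
    by_cases hp : ∀ p : ℕ, p.Prime → s < p → ¬ p ∣ M * A * A' ∧ ¬ (p : ℤ) ∣ c
    swap
    · exact Filter.Eventually.of_forall fun B _ _ _ h => absurd h hp
    obtain ⟨B0, hB0⟩ := h s M A A' C C' hs hM hA hA' hp
    filter_upwards [Filter.eventually_ge_atTop B0] with B hB _ _ _ _
    exact hB0 B hB)
  filter_upwards [h1] with B hB M A A' C C' hM hA hA' hC hC' hM1 hA1 hA'1 hp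
  refine hB (M, A, A', C, C') ?_ hM1 hA1 hA'1 hp
  rw [mem_product, mem_product, mem_product, mem_product, mem_range, mem_range, mem_range, mem_Icc,
    mem_Icc]
  simp only
  refine ⟨by omega, by omega, by omega, ⟨by omega, by omega⟩, by omega, by omega⟩

theorem ev_z (K1 V K2 ε : ℝ) (hε : 0 < ε) :
    ∀ᶠ z : ℕ in atTop, K1 * V ^ 4 * ((9 + K2) * (1 / (z : ℝ)) + √((9 + K2) * (K2 / z))) ≤ ε / 2 := by
  have h1 : Tendsto (fun z : ℕ => 1 / (z : ℝ)) atTop (𝓝 0) := tendsto_const_div_atTop_nhds_zero_nat 1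
  have h2 : Tendsto (fun z : ℕ => K2 / (z : ℝ)) atTop (𝓝 0) := tendsto_const_div_atTop_nhds_zero_nat K2
  have h3 : Tendsto (fun z : ℕ => √((9 + K2) * (K2 / (z : ℝ)))) atTop (𝓝 0) := by
    have h4 := (h2.const_mul (9 + K2)).sqrt
    simpa using h4
  have h4 : Tendsto (fun z : ℕ => K1 * V ^ 4 * ((9 + K2) * (1 / (z : ℝ)) + √((9 + K2) * (K2 / z))))
      atTop (𝓝 0) := by
    have h5 := ((h1.const_mul (9 + K2)).add h3).const_mul (K1 * V ^ 4)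
    simpa using h5
  exact h4.eventually_le_const (by positivity)

theorem pow_half {K1 K k : ℕ} (hK1 : 1 ≤ K1) (hK : 8 * K1 ≤ K) :
    (1 / 2 : ℝ) ^ (k / (8 * K1)) ≤ 2 * (2 : ℝ) ^ (-((k : ℝ) / K)) := by
  have hK1' : (1 : ℝ) ≤ K1 := by exact_mod_cast hK1
  have hK' : 8 * (K1 : ℝ) ≤ K := by exact_mod_cast hK
  have hk0 : (0 : ℝ) ≤ k := Nat.cast_nonneg k
  set b := k / (8 * K1) with hb
  have h1 : k < b * (8 * K1) + 8 * K1 := Nat.lt_div_mul_add (by omega)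
  have h2 : (k : ℝ) < b * (8 * K1) + 8 * K1 := by exact_mod_cast h1
  have h3 : (k : ℝ) / K ≤ b + 1 := by
    rw [div_le_iff₀ (by linarith)]
    have h4 : (0 : ℝ) ≤ b := Nat.cast_nonneg b
    nlinarith
  have h5 : (1 / 2 : ℝ) ^ b = (2 : ℝ) ^ (-(b : ℝ)) := by
    rw [Real.rpow_neg (by norm_num), Real.rpow_natCast, one_div, inv_pow]
  have h6 : (2 : ℝ) * (2 : ℝ) ^ (-((k : ℝ) / K)) = (2 : ℝ) ^ (1 + -((k : ℝ) / K)) := by
    rw [Real.rpow_add (by norm_num), Real.rpow_one]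
  rw [h5, h6]
  apply Real.rpow_le_rpow_of_exponent_le (by norm_num)
  linarith

theorem small_pow {ε P Y : ℝ} (hε : 0 < ε) (hY1 : 1 ≤ Y) (hY : (36 / ε) ^ 2 ≤ Y)
    (h : P ^ 8 ≤ Y ^ 3) : 9 * P ≤ ε / 4 * Y := by
  by_contra hcon
  rw [not_le] at hcon
  have hY0 : 0 < Y := by linarith
  have h1 : ε / 36 * Y < P := by linarith
  have h2 : (ε / 36 * Y) ^ 8 < P ^ 8 := by
    have : 0 ≤ ε / 36 * Y := by positivity
    gcongr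
  have h3 : (ε / 36 * Y) ^ 8 < Y ^ 3 := lt_of_lt_of_le h2 h
  have h4 : (36 / ε) ^ 8 ≤ Y ^ 4 := by
    calc (36 / ε) ^ 8 = ((36 / ε) ^ 2) ^ 4 := by ring
      _ ≤ Y ^ 4 := by gcongr
  have h5 : (ε / 36 * Y) ^ 8 * (36 / ε) ^ 8 = Y ^ 8 := by
    rw [← mul_pow]
    congr 1
    field_simp
  have h6 : Y ^ 8 ≤ (ε / 36 * Y) ^ 8 * Y ^ 4 := by
    rw [← h5]
    gcongr
  have h7 : Y ^ 4 ≤ (ε / 36 * Y) ^ 8 := by
    have h8 : Y ^ 4 * Y ^ 4 ≤ (ε / 36 * Y) ^ 8 * Y ^ 4 := by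
      calc Y ^ 4 * Y ^ 4 = Y ^ 8 := by ring
        _ ≤ _ := h6
    exact le_of_mul_le_mul_right h8 (by positivity)
  have h8 : Y ^ 3 ≤ Y ^ 4 := by
    apply pow_le_pow_right₀ hY1
    norm_num
  linarith

theorem t_BOX3 (h1 : ∀ c : ℤ, c ≠ 0 → S_FLB c) (h2 : ∀ c : ℤ, c ≠ 0 → S_AVG c) (h3 : S_MER) :
    ∀ c : ℤ, c ≠ 0 → S_BOX3 c := by
  classical
  intro c hc
  obtain ⟨K1, hK1, hF⟩ := h1 c hc
  obtain ⟨K2, hK2, hAv⟩ := h2 c hc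
  obtain ⟨C0, hC0, -, hM⟩ := h3
  set K : ℕ := 8 * K1 * K1 + 8 * K1 + 4 + ⌈2 * K1 * C0 ^ 4 * (9 + K2)⌉₊ with hK
  have hK4 : 4 ≤ K := by omega
  have hK8 : 8 * K1 ≤ K := by
    rw [hK]
    have : 0 ≤ 8 * K1 * K1 := Nat.zero_le _
    omega
  have hK88 : 8 * K1 * K1 ≤ K := by
    rw [hK]
    omega
  have hKC : 2 * K1 * C0 ^ 4 * (9 + K2) ≤ (K : ℝ) := by
    have h4 : ⌈2 * K1 * C0 ^ 4 * (9 + K2)⌉₊ ≤ K := by
      rw [hK]
      omega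
    exact (Nat.le_ceil _).trans (Nat.cast_le.2 h4)
  refine ⟨K, by omega, ?_⟩
  intro k w y M0 hk hw hcw hwy hy3 ε hε
  have hy0 : 2 ≤ y := by omega
  have hlogy : 1 ≤ Real.log y := by
    have h4 : Real.exp 1 ≤ y := by
      have h5 : (3 : ℝ) ≤ y := by exact_mod_cast hy3
      linarith [Real.exp_one_lt_d9]
    rw [← Real.log_exp 1]
    exact Real.log_le_log (Real.exp_pos 1) h4
  set b := k / (8 * K1) with hb
  have hbK : K1 ≤ b := by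
    rw [hb, Nat.le_div_iff_mul_le (by omega)]
    calc K1 * (8 * K1) = 8 * K1 * K1 := by ring
      _ ≤ k := hK88.trans hk
  set V : ℝ := (VW 0 y)⁻¹ with hV
  have hV0 : 0 < V := inv_pos.2 (VW_pos 0 y)
  have hVy : V ≤ C0 * Real.log y := (hM y hy0).2
  have hzev : ∀ᶠ z : ℕ in atTop, K1 * V ^ 4 * ((9 + K2) * (1 / (z : ℝ)) + √((9 + K2) * (K2 / z))) ≤
      ε / 2 ∧ K1 ≤ z ∧ y ≤ z :=
    (ev_z K1 V K2 ε hε).and ((eventually_ge_atTop K1).and (eventually_ge_atTop y))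
  obtain ⟨z0, hz0⟩ := eventually_atTop.1 hzev
  refine ⟨z0, fun z hz => ?_⟩
  obtain ⟨hzε, hzK, hyz⟩ := hz0 z hz
  have hz2 : 2 ≤ z := hy0.trans hyz
  have hAv' : ∀ (s M A A' : ℕ) (C C' : ℤ), 2 ≤ s → 1 ≤ M → 1 ≤ A → 1 ≤ A' →
      (∀ p : ℕ, p.Prime → s < p → ¬ p ∣ M * A * A' ∧ ¬ (p : ℤ) ∣ c) →
      ∃ B0 : ℕ, ∀ B : ℕ, B0 ≤ B → AvP c K2 s M A A' C C' B := by
    intro s M A A' C C' hs hM hA hA' hp
    obtain ⟨B0, hB0⟩ := hAv s M A A' C C' hs hM hA hA' hp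
    refine ⟨B0, fun B hB X R R' g1 g2 g3 g4 g5 g6 => ?_⟩
    have h4 := hB0 B hB X R R' g1 g2 g3 g4 g5 g6
    refine ⟨?_, ?_⟩
    · convert h4.1
    · convert h4.2
  have hlogB : Tendsto (fun B : ℕ => Real.log (B : ℝ)) atTop atTop :=
    Real.tendsto_log_atTop.comp tendsto_natCast_atTop_atTop
  have hBev := (ev_avg c K2 y M0 hy0 hAv').and ((ev_avg c K2 z M0 hz2 hAv').and
    ((eventually_ge_atTop ((16 * M0 ^ 4) ^ 3)).and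
    ((eventually_ge_atTop (⌈((36 / ε) ^ 2) ^ 3⌉₊)).and
    ((hlogB.eventually_ge_atTop 1).and ((hlogB.eventually_ge_atTop (64 * C0 ^ 4 / ε)).and
      (eventually_ge_atTop 1))))))
  obtain ⟨B0, hB0⟩ := eventually_atTop.1 hBev
  refine ⟨B0, fun B hB => ?_⟩
  obtain ⟨hBy, hBz, hBM, hBε, hBl, hBl2, hB1⟩ := hB0 B hB
  intro z1 X Y M A A' C C' hzz1 hz1k hMP hMM0 hAM hA'M hC hC' hX3 hX2 hY3 hY2
  -- the parameters
  have hM1 : 1 ≤ M := Nat.pos_of_dvd_of_pos hMP (PP_pos w y)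
  have hA1 : 1 ≤ A := Nat.pos_of_dvd_of_pos hAM hM1
  have hA'1 : 1 ≤ A' := Nat.pos_of_dvd_of_pos hA'M hM1
  have hAM0 : A ≤ M0 := (Nat.le_of_dvd hM1 hAM).trans hMM0
  have hA'M0 : A' ≤ M0 := (Nat.le_of_dvd hM1 hA'M).trans hMM0
  obtain ⟨hR1, hR4⟩ := div_facts hA1 hAM0 hBM hX3
  obtain ⟨hR'1, hR'4⟩ := div_facts hA'1 hA'M0 hBM hX3
  have hX1 : 1 ≤ X := by
    by_contra hcon
    have : X = 0 := by omega
    rw [this] at hX3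
    omega
  have hY1 : 1 ≤ Y := by
    by_contra hcon
    have : Y = 0 := by omega
    rw [this] at hY3
    omega
  have hX4 : B ≤ X ^ 4 := hX3.trans (Nat.pow_le_pow_right hX1 (by norm_num))
  have hRX : X / A ≤ B ^ 2 := (Nat.div_le_self X A).trans hX2
  have hR'X : X / A' ≤ B ^ 2 := (Nat.div_le_self X A').trans hX2
  have hpr : ∀ s : ℕ, y ≤ s → ∀ p : ℕ, p.Prime → s < p → ¬ p ∣ M * A * A' ∧ ¬ (p : ℤ) ∣ c := by
    intro s hs p hp hsp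
    constructor
    · intro hd
      have h4 : p ∣ M := by
        rcases (hp.dvd_mul.1 hd) with h5 | h5
        · rcases (hp.dvd_mul.1 h5) with h6 | h6
          · exact h6
          · exact h6.trans hAM
        · exact h5.trans hA'M
      have h5 := dvd_PP hp (h4.trans hMP)
      omega
    · intro hd
      have h4 : p ∣ c.natAbs := Int.natCast_dvd.1 hd
      have h5 := Nat.le_of_dvd (Int.natAbs_pos.2 hc) h4
      omega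
  have hAy := hBy M A A' C C' hMM0 hAM0 hA'M0 hC hC' hM1 hA1 hA'1 (hpr y le_rfl) X (X / A) (X / A')
    hX4 hR4 hR'4 hX2 hRX hR'X
  have hAz := hBz M A A' C C' hMM0 hAM0 hA'M0 hC hC' hM1 hA1 hA'1 (hpr z hyz) X (X / A) (X / A')
    hX4 hR4 hR'4 hX2 hRX hR'X
  have hk1 : 1 ≤ k := by omega
  have hz1B : z1 ≤ B := (Nat.le_self_pow (by omega) z1).trans hz1k
  have hz12 : 2 ≤ z1 := hz2.trans hzz1
  have hlB : ∀ u : ℕ, 2 ≤ u → u ≤ B → (VW 0 u)⁻¹ ≤ C0 * Real.log B := by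
    intro u hu huB
    refine ((hM u hu).2).trans ?_
    have h4 : Real.log u ≤ Real.log B := by
      apply Real.log_le_log
      · exact_mod_cast (by omega : 0 < u)
      · exact_mod_cast huB
    gcongr
  have hQ : (VW 0 z)⁻¹ + (VW 0 z1)⁻¹ ≤ 2 * C0 * Real.log B := by
    have h4 := hlB z hz2 (hzz1.trans hz1B)
    have h5 := hlB z1 hz12 hz1B
    linarith
  have hcore := core c w y z z1 M A A' X Y C C' (X / A) (X / A') K1 K2 (2 * C0 * Real.log B)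
    ((z1 : ℝ) ^ (K1 * b)) ((1 / 2 : ℝ) ^ b + 1 / z) (Real.log B ^ 10) (by omega) (by omega) hR1 hR'1
    (Nat.cast_nonneg _) hK2.le (by positivity) (by positivity) (by positivity)
    (fun x θ J1 J2 hJ hD => hF b w y z z1 M x θ J1 J2 hbK hzK hw hcw hwy hyz hzz1 hMP hJ hD)
    hQ (by convert hAy.1) (by convert hAz.1) (by convert hAy.2)
  refine hcore.trans ?_
  -- the numerical part
  have hRr : ((X / A : ℕ) : ℝ) ≤ (X : ℝ) / A := Nat.cast_div_le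
  have hRr' : ((X / A' : ℕ) : ℝ) ≤ (X : ℝ) / A' := Nat.cast_div_le
  have hprod : (X : ℝ) * ((X / A : ℕ) : ℝ) * ((X / A' : ℕ) : ℝ) ≤ X * (X / A) * (X / A') := by
    gcongr
  have hY0 : (1 : ℝ) ≤ Y := by exact_mod_cast hY1
  have hE0 : (0 : ℝ) ≤ K * Real.log y ^ K * (2 : ℝ) ^ (-((k : ℝ) / K)) := by positivity
  have hmain : (Y : ℝ) * ((2 * C0 * Real.log B) ^ 4 / Real.log B ^ 10 + K1 * V ^ 4 *
      ((9 + K2) * ((1 / 2 : ℝ) ^ b + 1 / z) + √((9 + K2) * (K2 / z)))) + 9 * (z1 : ℝ) ^ (K1 * b) ≤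
      (K * Real.log y ^ K * (2 : ℝ) ^ (-((k : ℝ) / K)) + ε) * Y := by
    have ha : (2 * C0 * Real.log B) ^ 4 / Real.log B ^ 10 ≤ ε / 4 := by
      have hL0 : 0 < Real.log (B : ℝ) := by linarith
      have h4 : (2 * C0 * Real.log B) ^ 4 / Real.log B ^ 10 = 16 * C0 ^ 4 / Real.log B ^ 6 := by
        field_simp
        ring
      rw [h4, div_le_iff₀ (by positivity)]
      have h5 : Real.log (B : ℝ) ≤ Real.log B ^ 6 := le_self_pow₀ hBl (by norm_num)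
      rw [div_le_iff₀ hε] at hBl2
      nlinarith
    have hbb : K1 * V ^ 4 * ((9 + K2) * (1 / 2 : ℝ) ^ b) ≤
        K * Real.log y ^ K * (2 : ℝ) ^ (-((k : ℝ) / K)) := by
      have h4 := pow_half (k := k) hK1 hK8
      have h5 : V ^ 4 ≤ C0 ^ 4 * Real.log y ^ K := by
        calc V ^ 4 ≤ (C0 * Real.log y) ^ 4 := by gcongr
          _ = C0 ^ 4 * Real.log y ^ 4 := by ring
          _ ≤ C0 ^ 4 * Real.log y ^ K := by
            gcongr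
      calc K1 * V ^ 4 * ((9 + K2) * (1 / 2 : ℝ) ^ b)
          ≤ K1 * (C0 ^ 4 * Real.log y ^ K) * ((9 + K2) * (2 * (2 : ℝ) ^ (-((k : ℝ) / K)))) := by
            gcongr
        _ = (2 * K1 * C0 ^ 4 * (9 + K2)) * Real.log y ^ K * (2 : ℝ) ^ (-((k : ℝ) / K)) := by ring
        _ ≤ K * Real.log y ^ K * (2 : ℝ) ^ (-((k : ℝ) / K)) := by gcongr
    have hd : 9 * (z1 : ℝ) ^ (K1 * b) ≤ ε / 4 * Y := by
      refine small_pow hε hY0 ?_ ?_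
      · have h4 : ((36 / ε) ^ 2) ^ 3 ≤ (Y : ℝ) ^ 3 := by
          refine (Nat.le_ceil _).trans ?_
          exact_mod_cast hBε.trans hY3
        exact (pow_le_pow_iff_left₀ (by positivity) (by positivity) (by norm_num)).1 h4
      · have h4 : (z1 ^ (K1 * b)) ^ 8 ≤ Y ^ 3 := by
          rw [← pow_mul]
          refine (Nat.pow_le_pow_right (by omega) ?_).trans (hz1k.trans hY3)
          calc K1 * b * 8 = k / (8 * K1) * (8 * K1) := by rw [← hb]; ring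
            _ ≤ k := Nat.div_mul_le_self _ _
        exact_mod_cast h4
    calc (Y : ℝ) * ((2 * C0 * Real.log B) ^ 4 / Real.log B ^ 10 + K1 * V ^ 4 *
        ((9 + K2) * ((1 / 2 : ℝ) ^ b + 1 / z) + √((9 + K2) * (K2 / z)))) + 9 * (z1 : ℝ) ^ (K1 * b)
        = Y * ((2 * C0 * Real.log B) ^ 4 / Real.log B ^ 10 + K1 * V ^ 4 *
          ((9 + K2) * (1 / 2 : ℝ) ^ b) + K1 * V ^ 4 * ((9 + K2) * (1 / (z : ℝ)) +
            √((9 + K2) * (K2 / z)))) + 9 * (z1 : ℝ) ^ (K1 * b) := by ring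
      _ ≤ Y * (ε / 4 + K * Real.log y ^ K * (2 : ℝ) ^ (-((k : ℝ) / K)) + ε / 2) + ε / 4 * Y := by
          gcongr
      _ = _ := by ring
  calc ((Y : ℝ) * ((2 * C0 * Real.log B) ^ 4 / Real.log B ^ 10 + K1 * V ^ 4 *
      ((9 + K2) * ((1 / 2 : ℝ) ^ b + 1 / z) + √((9 + K2) * (K2 / z)))) + 9 * (z1 : ℝ) ^ (K1 * b)) *
        ((X : ℝ) * ((X / A : ℕ) : ℝ) * ((X / A' : ℕ) : ℝ))
      ≤ ((K * Real.log y ^ K * (2 : ℝ) ^ (-((k : ℝ) / K)) + ε) * Y) *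
        (X * (X / A) * (X / A')) := by gcongr
    _ = _ := by ring

theorem t_BOX (h1 : ∀ c : ℤ, c ≠ 0 → S_FLB c) (h2 : ∀ c : ℤ, c ≠ 0 → S_AVG c) (h3 : S_MER) :
    ∀ c : ℤ, c ≠ 0 → S_BOX c := t_BOX3 h1 h2 h3

end Pool.Agent.N364.QL
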