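import Pool.Agent.N728.QL.Def

/-!
# Project QL, part BOX: preparations
-/

set_option autoImplicit false

namespace Pool.Agent.N364.QL

open Finset Pool.Agent.N728.QL

theorem VW_pos (w y : ℕ) : 0 < VW w y := by
  unfold VW
  refine prod_pos fun p hp => ?_
  have hp2 : (2 : ℝ) ≤ p := by exact_mod_cast (mem_filter.1 hp).2.two_le
  have h1 : 1 / (p : ℝ) ≤ 1 / 2 := by
    apply one_div_le_one_div_of_le <;> linarith
  linarith

theorem rg_mem (w y : ℕ) (n : ℤ) : 0 ≤ rg w y n ∧ rg w y n ≤ 1 := by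
  unfold rg
  split_ifs <;> norm_num

theorem rg_abs (w y : ℕ) (n : ℤ) : |rg w y n| ≤ 1 := by
  rw [abs_of_nonneg (rg_mem w y n).1]
  exact (rg_mem w y n).2

theorem lz_mem (z : ℕ) (n : ℤ) : 0 ≤ lz z n ∧ lz z n ≤ (VW 0 z)⁻¹ := by
  unfold lz
  have h := inv_pos.2 (VW_pos 0 z)
  split_ifs
  · exact ⟨h.le, le_rfl⟩
  · exact ⟨le_rfl, h.le⟩

theorem dz_le (z z1 : ℕ) (n : ℤ) : |dz z z1 n| ≤ (VW 0 z)⁻¹ + (VW 0 z1)⁻¹ := by
  unfold dz
  have h1 := lz_mem z n
  have h2 := lz_mem z1 n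
  rw [abs_le]
  constructor <;> linarith

theorem hq_one_le (s : ℕ) (D : ℤ) : 1 ≤ hq s D := by
  unfold hq
  refine Finset.prod_induction _ (fun x : ℝ => 1 ≤ x)
    (fun a b ha hb => one_le_mul_of_one_le_of_one_le ha hb) le_rfl fun p _ => ?_
  have : (0 : ℝ) ≤ 8 / p := by positivity
  linarith

/-- the sum over the second coordinate -/
theorem inner (c : ℤ) (w y z z1 X Y M : ℕ) (xi θ : Fin 4 → ℤ) :
    ∃ J1 J2 : ℤ, J1 ≤ J2 ∧ J2 - J1 ≤ Y ∧
      |∑ s ∈ Icc (1 : ℤ) Y, ∏ i, fB c w y z z1 X Y M (xi i) (s + θ i)| ≤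
        |∑ s ∈ Ioc J1 J2, ∏ i, (rg w y (s + θ i) * dz z z1 (M * xi i * (s + θ i) + c))| := by
  classical
  have htriv : ∑ s ∈ Icc (1 : ℤ) Y, ∏ i, fB c w y z z1 X Y M (xi i) (s + θ i) = 0 →
      ∃ J1 J2 : ℤ, J1 ≤ J2 ∧ J2 - J1 ≤ Y ∧
      |∑ s ∈ Icc (1 : ℤ) Y, ∏ i, fB c w y z z1 X Y M (xi i) (s + θ i)| ≤
        |∑ s ∈ Ioc J1 J2, ∏ i, (rg w y (s + θ i) * dz z z1 (M * xi i * (s + θ i) + c))| := by
    intro h
    refine ⟨0, 0, le_rfl, by simp, ?_⟩
    rw [h, abs_zero]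
    exact abs_nonneg _
  by_cases hx : ∀ i, 1 ≤ xi i ∧ xi i ≤ X
  · set S := (Icc (1 : ℤ) Y).filter fun s => ∀ i, 1 ≤ s + θ i ∧ s + θ i ≤ Y with hS
    have hout : ∀ s ∈ Icc (1 : ℤ) Y, s ∉ S →
        ∏ i, fB c w y z z1 X Y M (xi i) (s + θ i) = 0 := by
      intro s hs hsS
      have h1 : ¬ ∀ i, 1 ≤ s + θ i ∧ s + θ i ≤ Y := fun h => hsS (mem_filter.2 ⟨hs, h⟩)
      rw [not_forall] at h1
      obtain ⟨i, hi⟩ := h1
      refine prod_eq_zero (mem_univ i) ?_
      unfold fB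
      rw [if_neg fun h => hi ⟨h.2.2.1, h.2.2.2⟩]
    have hsub : S ⊆ Icc (1 : ℤ) Y := filter_subset _ _
    rcases S.eq_empty_or_nonempty with hSe | hSe
    · apply htriv
      refine sum_eq_zero fun s hs => hout s hs ?_
      rw [hSe]
      exact notMem_empty s
    · set a := S.min' hSe with ha
      set b := S.max' hSe with hb
      have haS : a ∈ S := S.min'_mem hSe
      have hbS : b ∈ S := S.max'_mem hSe
      have ha1 := mem_Icc.1 (hsub haS)
      have hb1 := mem_Icc.1 (hsub hbS)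
      have hab : a ≤ b := S.min'_le b hbS
      refine ⟨a - 1, b, by linarith, by linarith [ha1.1, hb1.2], ?_⟩
      have hSI : S = Ioc (a - 1) b := by
        ext s
        rw [mem_Ioc]
        constructor
        · intro hs
          have h1 := S.min'_le s hs
          have h2 := S.le_max' s hs
          exact ⟨by omega, h2⟩
        · rintro ⟨h1, h2⟩
          have h3 : a ≤ s := by omega
          rw [hS, mem_filter, mem_Icc]
          refine ⟨⟨by linarith [ha1.1], by linarith [hb1.2]⟩, fun i => ?_⟩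
          have h4 := (mem_filter.1 haS).2 i
          have h5 := (mem_filter.1 hbS).2 i
          exact ⟨by linarith [h4.1], by linarith [h5.2]⟩
      have hsum : ∑ s ∈ Icc (1 : ℤ) Y, ∏ i, fB c w y z z1 X Y M (xi i) (s + θ i) =
          (∏ i, rg w y (xi i)) *
            ∑ s ∈ Ioc (a - 1) b, ∏ i, (rg w y (s + θ i) * dz z z1 (M * xi i * (s + θ i) + c)) := by
        rw [← sum_subset hsub hout, hSI, mul_sum]
        refine sum_congr rfl fun s hs => ?_
        rw [← prod_mul_distrib]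
        refine prod_congr rfl fun i _ => ?_
        rw [← hSI, hS, mem_filter] at hs
        unfold fB
        rw [if_pos ⟨(hx i).1, (hx i).2, (hs.2 i).1, (hs.2 i).2⟩]
        ring
      rw [hsum, abs_mul, abs_prod]
      have h1 : ∏ i, |rg w y (xi i)| ≤ 1 :=
        prod_le_one (fun i _ => abs_nonneg _) fun i _ => rg_abs w y _
      calc (∏ i, |rg w y (xi i)|) * |∑ s ∈ Ioc (a - 1) b,
            ∏ i, (rg w y (s + θ i) * dz z z1 (M * xi i * (s + θ i) + c))|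
          ≤ 1 * |∑ s ∈ Ioc (a - 1) b,
            ∏ i, (rg w y (s + θ i) * dz z z1 (M * xi i * (s + θ i) + c))| := by gcongr
        _ = _ := one_mul _
  · apply htriv
    rw [not_forall] at hx
    obtain ⟨i, hi⟩ := hx
    refine sum_eq_zero fun s _ => prod_eq_zero (mem_univ i) ?_
    unfold fB
    rw [if_neg fun h => hi ⟨h.1, h.2.1⟩]

/-- the trivial bound -/
theorem trivial_bound (c : ℤ) (w y z z1 M : ℕ) (Y : ℝ) (xi θ : Fin 4 → ℤ) (J1 J2 : ℤ) (hJ : J1 ≤ J2)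
    (hY : ((J2 - J1 : ℤ) : ℝ) ≤ Y) (Q : ℝ) (hQ : (VW 0 z)⁻¹ + (VW 0 z1)⁻¹ ≤ Q) :
    |∑ s ∈ Ioc J1 J2, ∏ i, (rg w y (s + θ i) * dz z z1 (M * xi i * (s + θ i) + c))| ≤ Y * Q ^ 4 := by
  have hQ0 : 0 ≤ Q := le_trans (add_nonneg (inv_pos.2 (VW_pos 0 z)).le
    (inv_pos.2 (VW_pos 0 z1)).le) hQ
  calc |∑ s ∈ Ioc J1 J2, ∏ i, (rg w y (s + θ i) * dz z z1 (M * xi i * (s + θ i) + c))|
      ≤ ∑ s ∈ Ioc J1 J2, |∏ i, (rg w y (s + θ i) * dz z z1 (M * xi i * (s + θ i) + c))| :=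
        abs_sum_le_sum_abs _ _
    _ ≤ ∑ _s ∈ Ioc J1 J2, Q ^ 4 := by
        refine sum_le_sum fun s _ => ?_
        rw [abs_prod]
        calc ∏ i, |rg w y (s + θ i) * dz z z1 (M * xi i * (s + θ i) + c)| ≤ ∏ _i : Fin 4, Q := by
              refine prod_le_prod (fun i _ => abs_nonneg _) fun i _ => ?_
              rw [abs_mul]
              calc |rg w y (s + θ i)| * |dz z z1 (M * xi i * (s + θ i) + c)| ≤ 1 * Q := by
                    gcongr
                    · exact rg_abs w y _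
                    · exact (dz_le z z1 _).trans hQ
                _ = Q := one_mul _
          _ = Q ^ 4 := by simp
    _ = ((J2 - J1 : ℤ) : ℝ) * Q ^ 4 := by
        rw [sum_const, Int.card_Ioc, nsmul_eq_mul]
        congr 1
        have h : ((J2 - J1).toNat : ℤ) = J2 - J1 := Int.toNat_of_nonneg (by linarith)
        exact_mod_cast congrArg (Int.cast : ℤ → ℝ) h
    _ ≤ Y * Q ^ 4 := by gcongr

end Pool.Agent.N364.QL
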