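import Pool.Agent.N364.QL.BoxA

/-!
# Project QL, part BOX: the main inequality for fixed parameters
-/

set_option autoImplicit false

namespace Pool.Agent.N364.QL

open Finset Pool.Agent.N728.QL

open Classical in
/-- the main inequality -/
theorem core (c : ℤ) (w y z z1 M A A' X Y : ℕ) (C C' : ℤ) (R R' : ℕ) (K1 K2 Q Pw q0 L : ℝ)
    (hy : 1 ≤ y) (hz : 1 ≤ z) (hR : 1 ≤ R) (hR' : 1 ≤ R') (hK1 : 0 ≤ K1) (hK2 : 0 ≤ K2)
    (hPw : 0 ≤ Pw) (hq0 : 0 ≤ q0) (hL : 0 < L)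
    (hFLB : ∀ (x θ : Fin 4 → ℤ) (J1 J2 : ℤ), J1 ≤ J2 → Dl c M x θ ≠ 0 →
      |∑ t ∈ Ioc J1 J2, ∏ i, (rg w y (t + θ i) * dz z z1 (M * x i * (t + θ i) + c))| ≤
        K1 * (VW 0 y)⁻¹ ^ 4 * ((J2 : ℝ) - J1) *
          (hq y (Dl c M x θ) ^ 2 * q0 + hq y (Dl c M x θ) * (hq z (Dl c M x θ) - 1)) + Pw)
    (hQ : (VW 0 z)⁻¹ + (VW 0 z1)⁻¹ ≤ Q)
    (hAy : (∑ x ∈ Icc (1 : ℤ) X, ∑ t ∈ Icc (-(R : ℤ)) R, ∑ r ∈ Icc (-(R' : ℤ)) R',
      (if Dl c M (xs A A' x t r) (ts C C' t r) = 0 then 0 else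
        hq y (Dl c M (xs A A' x t r) (ts C C' t r)) ^ 2 - 1)) ≤ K2 / y * ((X : ℝ) * R * R'))
    (hAz : (∑ x ∈ Icc (1 : ℤ) X, ∑ t ∈ Icc (-(R : ℤ)) R, ∑ r ∈ Icc (-(R' : ℤ)) R',
      (if Dl c M (xs A A' x t r) (ts C C' t r) = 0 then 0 else
        hq z (Dl c M (xs A A' x t r) (ts C C' t r)) ^ 2 - 1)) ≤ K2 / z * ((X : ℝ) * R * R'))
    (hA0 : (∑ x ∈ Icc (1 : ℤ) X, ∑ t ∈ Icc (-(R : ℤ)) R, ∑ r ∈ Icc (-(R' : ℤ)) R',
      (if Dl c M (xs A A' x t r) (ts C C' t r) = 0 then (1 : ℝ) else 0)) ≤ (X : ℝ) * R * R' / L) :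
    ∑ t ∈ Icc (-(R : ℤ)) R, ∑ r ∈ Icc (-(R' : ℤ)) R',
      |∑ x ∈ Icc (1 : ℤ) X, ∑ s ∈ Icc (1 : ℤ) Y, fB c w y z z1 X Y M x s *
        fB c w y z z1 X Y M (x + t * A) (s + t * C) *
        fB c w y z z1 X Y M (x + r * A') (s + r * C') *
        fB c w y z z1 X Y M (x + t * A + r * A') (s + t * C + r * C')| ≤
      (Y * (Q ^ 4 / L + K1 * (VW 0 y)⁻¹ ^ 4 * ((9 + K2) * q0 + √((9 + K2) * (K2 / z)))) + 9 * Pw) *
        ((X : ℝ) * R * R') := by
  set V : ℝ := (VW 0 y)⁻¹ with hV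
  have hV0 : 0 < V := inv_pos.2 (VW_pos 0 y)
  have hQ0 : 0 ≤ Q := le_trans (add_nonneg (inv_pos.2 (VW_pos 0 z)).le
    (inv_pos.2 (VW_pos 0 z1)).le) hQ
  set N : ℝ := (X : ℝ) * R * R' with hN
  have hN0 : 0 ≤ N := by positivity
  set D : ℤ → ℤ → ℤ → ℤ := fun x t r => Dl c M (xs A A' x t r) (ts C C' t r) with hD
  set e0 : ℤ → ℤ → ℤ → ℝ := fun x t r => if D x t r = 0 then 1 else 0 with he0
  set g : ℤ → ℤ → ℤ → ℝ := fun x t r => if D x t r = 0 then 0 else hq y (D x t r) with hg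
  set h : ℤ → ℤ → ℤ → ℝ := fun x t r => if D x t r = 0 then 0 else hq z (D x t r) - 1 with hh
  have hg0 : ∀ x t r, 0 ≤ g x t r := by
    intro x t r
    simp only [hg]
    split_ifs
    · exact le_rfl
    · linarith [hq_one_le y (D x t r)]
  have hh0 : ∀ x t r, 0 ≤ h x t r := by
    intro x t r
    simp only [hh]
    split_ifs
    · exact le_rfl
    · linarith [hq_one_le z (D x t r)]
  have he00 : ∀ x t r, 0 ≤ e0 x t r := by
    intro x t r
    simp only [he0]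
    split_ifs <;> norm_num
  -- the bound for one triple
  have hpt : ∀ x t r : ℤ, |∑ s ∈ Icc (1 : ℤ) Y, fB c w y z z1 X Y M x s *
        fB c w y z z1 X Y M (x + t * A) (s + t * C) *
        fB c w y z z1 X Y M (x + r * A') (s + r * C') *
        fB c w y z z1 X Y M (x + t * A + r * A') (s + t * C + r * C')| ≤
      Y * Q ^ 4 * e0 x t r + K1 * V ^ 4 * Y * (g x t r ^ 2 * q0 + g x t r * h x t r) + Pw := by
    intro x t r
    obtain ⟨J1, J2, hJ, hJY, hle⟩ := inner c w y z z1 X Y M (xs A A' x t r) (ts C C' t r)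
    have heq : ∑ s ∈ Icc (1 : ℤ) Y, fB c w y z z1 X Y M x s *
        fB c w y z z1 X Y M (x + t * A) (s + t * C) *
        fB c w y z z1 X Y M (x + r * A') (s + r * C') *
        fB c w y z z1 X Y M (x + t * A + r * A') (s + t * C + r * C') =
        ∑ s ∈ Icc (1 : ℤ) Y, ∏ i, fB c w y z z1 X Y M (xs A A' x t r i) (s + ts C C' t r i) := by
      refine sum_congr rfl fun s _ => ?_
      rw [Fin.prod_univ_four]
      simp [xs, ts, add_assoc]
    rw [heq]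
    have hJY' : ((J2 - J1 : ℤ) : ℝ) ≤ Y := by exact_mod_cast hJY
    have hJ0 : 0 ≤ ((J2 : ℝ) - J1) := by
      have : (J1 : ℝ) ≤ J2 := by exact_mod_cast hJ
      linarith
    refine hle.trans ?_
    by_cases hD0 : D x t r = 0
    · have h1 : e0 x t r = 1 := by simp only [he0, hD0, if_true]
      have h2 : g x t r = 0 := by simp only [hg, hD0, if_true]
      rw [h1, h2]
      have h3 := trivial_bound c w y z z1 M (Y : ℝ) (xs A A' x t r) (ts C C' t r) J1 J2 hJ hJY' Q hQ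
      nlinarith
    · have h1 : e0 x t r = 0 := by simp only [he0, hD0, if_false]
      have h2 : g x t r = hq y (D x t r) := by simp only [hg, hD0, if_false]
      have h3 : h x t r = hq z (D x t r) - 1 := by simp only [hh, hD0, if_false]
      have h4 := hFLB (xs A A' x t r) (ts C C' t r) J1 J2 hJ hD0
      have h5 : K1 * V ^ 4 * ((J2 : ℝ) - J1) * (hq y (D x t r) ^ 2 * q0 +
          hq y (D x t r) * (hq z (D x t r) - 1)) ≤
          K1 * V ^ 4 * Y * (hq y (D x t r) ^ 2 * q0 + hq y (D x t r) * (hq z (D x t r) - 1)) := by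
        have h6 : 0 ≤ hq y (D x t r) ^ 2 * q0 + hq y (D x t r) * (hq z (D x t r) - 1) := by
          have h7 := hg0 x t r
          have h8 := hh0 x t r
          rw [h2] at h7
          rw [h3] at h8
          positivity
        have h9 : ((J2 : ℝ) - J1) ≤ Y := by
          push_cast at hJY'
          exact hJY'
        gcongr
      rw [h1, h2, h3]
      linarith
  -- triple sums
  set T3 : Finset (ℤ × ℤ × ℤ) := Icc (1 : ℤ) X ×ˢ (Icc (-(R : ℤ)) R ×ˢ Icc (-(R' : ℤ)) R') with hT3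
  have htri : ∀ f : ℤ → ℤ → ℤ → ℝ, ∑ x ∈ Icc (1 : ℤ) X, ∑ t ∈ Icc (-(R : ℤ)) R,
      ∑ r ∈ Icc (-(R' : ℤ)) R', f x t r = ∑ p ∈ T3, f p.1 p.2.1 p.2.2 := by
    intro f
    rw [hT3, sum_product]
    refine sum_congr rfl fun x _ => ?_
    rw [sum_product]
  have hcardI : ∀ n : ℕ, ((Icc (-(n : ℤ)) n).card : ℝ) = 2 * n + 1 := by
    intro n
    rw [Int.card_Icc]
    have : ((n : ℤ) + 1 - -(n : ℤ)).toNat = 2 * n + 1 := by omega
    rw [this]
    push_cast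
    ring
  have hcard : (T3.card : ℝ) ≤ 9 * N := by
    rw [hT3, card_product, card_product]
    push_cast
    rw [hcardI, hcardI, Int.card_Icc]
    have h1 : ((X : ℤ) + 1 - 1).toNat = X := by omega
    rw [h1]
    have hR1 : (1 : ℝ) ≤ R := by exact_mod_cast hR
    have hR1' : (1 : ℝ) ≤ R' := by exact_mod_cast hR'
    have h2 : (2 * (R : ℝ) + 1) * (2 * R' + 1) ≤ (3 * R) * (3 * R') := by gcongr <;> linarith
    calc (X : ℝ) * ((2 * (R : ℝ) + 1) * (2 * R' + 1)) ≤ X * ((3 * R) * (3 * R')) := by gcongr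
      _ = 9 * N := by rw [hN]; ring
  -- the sums
  have hy1 : K2 / y ≤ K2 := by
    apply div_le_self hK2
    exact_mod_cast hy
  have hG : ∑ p ∈ T3, g p.1 p.2.1 p.2.2 ^ 2 ≤ (9 + K2) * N := by
    have h1 : ∀ x t r, g x t r ^ 2 ≤ (if D x t r = 0 then 0 else hq y (D x t r) ^ 2 - 1) + 1 := by
      intro x t r
      simp only [hg]
      split_ifs <;> norm_num
    calc ∑ p ∈ T3, g p.1 p.2.1 p.2.2 ^ 2
        ≤ ∑ p ∈ T3, ((if D p.1 p.2.1 p.2.2 = 0 then 0 else hq y (D p.1 p.2.1 p.2.2) ^ 2 - 1) + 1) :=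
          sum_le_sum fun p _ => h1 _ _ _
      _ = (∑ p ∈ T3, (if D p.1 p.2.1 p.2.2 = 0 then 0 else hq y (D p.1 p.2.1 p.2.2) ^ 2 - 1)) +
          T3.card := by
          rw [sum_add_distrib, sum_const, nsmul_eq_mul, mul_one]
      _ ≤ K2 / y * N + 9 * N := by
          refine add_le_add ?_ hcard
          rw [← htri fun x t r => if D x t r = 0 then 0 else hq y (D x t r) ^ 2 - 1]
          exact hAy
      _ ≤ (9 + K2) * N := by nlinarith
  have hH : ∑ p ∈ T3, h p.1 p.2.1 p.2.2 ^ 2 ≤ K2 / z * N := by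
    have h1 : ∀ x t r, h x t r ^ 2 ≤ (if D x t r = 0 then 0 else hq z (D x t r) ^ 2 - 1) := by
      intro x t r
      simp only [hh]
      split_ifs
      · norm_num
      · nlinarith [hq_one_le z (D x t r)]
    refine (sum_le_sum fun p _ => h1 _ _ _).trans ?_
    rw [← htri fun x t r => if D x t r = 0 then 0 else hq z (D x t r) ^ 2 - 1]
    exact hAz
  have hE : ∑ p ∈ T3, e0 p.1 p.2.1 p.2.2 ≤ N / L := by
    rw [← htri e0]
    exact hA0
  have hGH : ∑ p ∈ T3, g p.1 p.2.1 p.2.2 * h p.1 p.2.1 p.2.2 ≤ √((9 + K2) * (K2 / z)) * N := by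
    have h1 := Real.sum_mul_le_sqrt_mul_sqrt T3 (fun p => g p.1 p.2.1 p.2.2)
      (fun p => h p.1 p.2.1 p.2.2)
    refine h1.trans ?_
    calc √(∑ p ∈ T3, g p.1 p.2.1 p.2.2 ^ 2) * √(∑ p ∈ T3, h p.1 p.2.1 p.2.2 ^ 2)
        ≤ √((9 + K2) * N) * √(K2 / z * N) := by gcongr
      _ = √(((9 + K2) * (K2 / z)) * N ^ 2) := by
          rw [← Real.sqrt_mul (by positivity)]
          congr 1
          ring
      _ = √((9 + K2) * (K2 / z)) * N := by
          rw [Real.sqrt_mul (by positivity), Real.sqrt_sq hN0]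
  -- assembly
  calc ∑ t ∈ Icc (-(R : ℤ)) R, ∑ r ∈ Icc (-(R' : ℤ)) R',
      |∑ x ∈ Icc (1 : ℤ) X, ∑ s ∈ Icc (1 : ℤ) Y, fB c w y z z1 X Y M x s *
        fB c w y z z1 X Y M (x + t * A) (s + t * C) *
        fB c w y z z1 X Y M (x + r * A') (s + r * C') *
        fB c w y z z1 X Y M (x + t * A + r * A') (s + t * C + r * C')|
      ≤ ∑ t ∈ Icc (-(R : ℤ)) R, ∑ r ∈ Icc (-(R' : ℤ)) R', ∑ x ∈ Icc (1 : ℤ) X,
        (Y * Q ^ 4 * e0 x t r + K1 * V ^ 4 * Y * (g x t r ^ 2 * q0 + g x t r * h x t r) + Pw) :=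
        sum_le_sum fun t _ => sum_le_sum fun r _ =>
          (abs_sum_le_sum_abs _ _).trans (sum_le_sum fun x _ => hpt x t r)
    _ = ∑ p ∈ T3, (Y * Q ^ 4 * e0 p.1 p.2.1 p.2.2 + K1 * V ^ 4 * Y *
          (g p.1 p.2.1 p.2.2 ^ 2 * q0 + g p.1 p.2.1 p.2.2 * h p.1 p.2.1 p.2.2) + Pw) := by
        rw [← htri fun x t r =>
          Y * Q ^ 4 * e0 x t r + K1 * V ^ 4 * Y * (g x t r ^ 2 * q0 + g x t r * h x t r) + Pw]
        exact (sum_congr rfl fun t _ => sum_comm).trans sum_comm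
    _ = Y * Q ^ 4 * (∑ p ∈ T3, e0 p.1 p.2.1 p.2.2) + K1 * V ^ 4 * Y *
          ((∑ p ∈ T3, g p.1 p.2.1 p.2.2 ^ 2) * q0 +
            ∑ p ∈ T3, g p.1 p.2.1 p.2.2 * h p.1 p.2.1 p.2.2) + T3.card * Pw := by
        rw [sum_add_distrib, sum_add_distrib, sum_const, nsmul_eq_mul, ← mul_sum, ← mul_sum,
          sum_add_distrib, ← sum_mul]
    _ ≤ Y * Q ^ 4 * (N / L) + K1 * V ^ 4 * Y *
          (((9 + K2) * N) * q0 + √((9 + K2) * (K2 / z)) * N) + (9 * N) * Pw := by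
        gcongr
    _ = (Y * (Q ^ 4 / L + K1 * V ^ 4 * ((9 + K2) * q0 + √((9 + K2) * (K2 / z)))) + 9 * Pw) * N := by
        ring

end Pool.Agent.N364.QL
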